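import Pool.Agent.Helper4.BM.Fin2
import Pool.Agent.Helper46.BM.IsoP

/-!
Periodic (conjugacy) biprimitively finite groups with a finite maximal subgroup `M` such that
`M/M_G` is nilpotent (`M_G` the normal core of `M`).
-/

namespace Pool.Agent.Results.MP_83c06d_al.NilpotentMaximal

open Subgroup Pool.Agent.Helper21.BP

universe u

theorem result (G : Type u) [Group G] (periodic : ∀ g : G, IsOfFinOrder g) (hinf : Infinite G)
    (M : Subgroup G) (hmax : IsCoatom M) (hfin : Finite M)
    (hnil : Group.IsNilpotent (M ⧸ M.normalCore.subgroupOf M)) :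
    Odd (Nat.card (M ⧸ M.normalCore.subgroupOf M)) ∧
    (ConjugacyBiprimitivelyFinite G →
      ¬ 3 ∣ Nat.card (M ⧸ M.normalCore.subgroupOf M) ∧
      ¬ (Nat.card (M ⧸ M.normalCore.subgroupOf M)).Prime ∧
      ∃ F : Subgroup (G ⧸ M.normalCore), F.Normal ∧
        F.IsComplement' (M.map (QuotientGroup.mk' M.normalCore)) ∧
        (∀ f ∈ F, (orderOf f).Coprime (Nat.card (M ⧸ M.normalCore.subgroupOf M))) ∧
        ∀ z ∈ M.map (QuotientGroup.mk' M.normalCore), (orderOf z).Prime →
          (∀ m ∈ M.map (QuotientGroup.mk' M.normalCore), m * z = z * m) →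
          ∀ f ∈ F, f * z = z * f → f = 1) ∧
    (BiprimitivelyFinite G →
      IsCyclic (center (M ⧸ M.normalCore.subgroupOf M)) ∧
      ∀ p q : ℕ, p.Prime → q.Prime → p ≠ q →
        Nat.card (M ⧸ M.normalCore.subgroupOf M) ≠ p * q) :=
  Helper4.BM.main
    (fun _ _ _ hf hM hc _ hp hp2 hpM _ hz hzo hcen =>
      Helper46.BM.good_of_pgroup hf hM hc hp hp2 hpM hz hzo hcen)
    G periodic hinf M hmax hfin hnil

end Pool.Agent.Results.MP_83c06d_al.NilpotentMaximal
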